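import Mathlib

set_option autoImplicit false

namespace Pool.Agent.Lib.MP_ed9a33_co_Full

open Classical Relation

set_option linter.unusedSectionVars false

variable {V : Type*} [Fintype V]

/-- Out-boundary of a vertex set: the vertices outside `X` with an in-neighbour in `X`. -/
noncomputable def bd (A : V → V → Prop) (X : Finset V) : Finset V :=
  Finset.univ.filter (fun w => w ∉ X ∧ ∃ v ∈ X, A v w)

/-- Minimum out-degree at least `K` (loops not counted). -/
def Deg (A : V → V → Prop) (K : ℕ) : Prop :=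
  ∀ v, ∃ S : Finset V, K ≤ S.card ∧ ∀ w ∈ S, w ≠ v ∧ A v w

/-- A directed walk from `x` to `y` all of whose non-final vertices satisfy `P`. -/
def Conn (A : V → V → Prop) (P : V → Prop) (x y : V) : Prop :=
  ReflTransGen (fun u v => A u v ∧ P u) x y

/-- Strong connectivity of the subdigraph induced by `T`, in cut form. -/
def SC (A : V → V → Prop) (T : Finset V) : Prop :=
  ∀ X : Finset V, X ⊆ T → X.Nonempty → X ≠ T → ∃ u ∈ X, ∃ v ∈ T, v ∉ X ∧ A u v

variable {A : V → V → Prop}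

lemma mem_bd {X : Finset V} {w : V} : w ∈ bd A X ↔ w ∉ X ∧ ∃ v ∈ X, A v w := by
  simp [bd]

lemma Conn.mono {P Q : V → Prop} (h : ∀ v, P v → Q v) {x y : V} (c : Conn A P x y) :
    Conn A Q x y :=
  by
  unfold Conn at *
  induction c with
  | refl => exact ReflTransGen.refl
  | tail _ hab ih => exact ReflTransGen.tail ih ⟨hab.1, h _ hab.2⟩

lemma Conn.trans {P : V → Prop} {x y z : V} (c : Conn A P x y) (d : Conn A P y z) :
    Conn A P x z := ReflTransGen.trans c d

/-- In a strongly connected set `T`, every vertex `x` reaches every nonempty subset `Y` with all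
vertices before the end in `T \ Y`. -/
lemma SC.conn {T : Finset V} (h : SC A T) {x : V} (hx : x ∈ T) {Y : Finset V} (hY : Y ⊆ T)
    (hne : Y.Nonempty) : ∃ y ∈ Y, Conn A (fun v => v ∈ T ∧ v ∉ Y) x y := by
  by_cases hxY : x ∈ Y
  · exact ⟨x, hxY, ReflTransGen.refl⟩
  by_contra hcon
  push Not at hcon
  let Z : Finset V := Finset.univ.filter
    (fun z => z ∈ T ∧ z ∉ Y ∧ Conn A (fun v => v ∈ T ∧ v ∉ Y) x z)
  have hZ : ∀ z, z ∈ Z ↔ (z ∈ T ∧ z ∉ Y ∧ Conn A (fun v => v ∈ T ∧ v ∉ Y) x z) := by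
    intro z; simp [Z]
  have hxZ : x ∈ Z := (hZ x).2 ⟨hx, hxY, ReflTransGen.refl⟩
  have hZT : Z ⊆ T := fun z hz => ((hZ z).1 hz).1
  have hZne : Z ≠ T := by
    intro heq
    obtain ⟨y, hy⟩ := hne
    have hyZ : y ∈ Z := heq ▸ hY hy
    exact ((hZ y).1 hyZ).2.1 hy
  obtain ⟨u, hu, v, hv, hvZ, huv⟩ := h Z hZT ⟨x, hxZ⟩ hZne
  obtain ⟨huT, huY, huc⟩ := (hZ u).1 hu
  have hc : Conn A (fun v => v ∈ T ∧ v ∉ Y) x v := ReflTransGen.tail huc ⟨huv, huT, huY⟩
  by_cases hvY : v ∈ Y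
  · exact hcon v hvY hc
  · exact hvZ ((hZ v).2 ⟨hv, hvY, hc⟩)

/-- A set of out-boundary smaller than the minimum out-degree is not a singleton. -/
lemma erase_nonempty {K : ℕ} (hdeg : Deg A K) {T : Finset V} {x : V} (hx : x ∈ T)
    (hb : (bd A T).card < K) : (T.erase x).Nonempty := by
  by_contra hcon
  rw [Finset.not_nonempty_iff_eq_empty] at hcon
  obtain ⟨S, hS, hS'⟩ := hdeg x
  have hT : ∀ y ∈ T, y = x := by
    intro y hy
    by_contra hyx
    have : y ∈ T.erase x := Finset.mem_erase.2 ⟨hyx, hy⟩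
    rw [hcon] at this
    simp at this
  have hsub : S ⊆ bd A T := by
    intro w hw
    obtain ⟨h1, h2⟩ := hS' w hw
    refine mem_bd.2 ⟨fun hwT => h1 (hT w hwT), x, hx, h2⟩
  have := Finset.card_le_card hsub
  omega

/-- The state of the chain phase. -/
def ChainState (A : V → V → Prop) (i : ℕ) (R : Finset V) (p : V) : Prop :=
  p ∈ R ∧ (bd A R).card ≤ i ∧
    (∀ X : Finset V, X ⊆ R → X.Nonempty → X ≠ R → i < (bd A X).card) ∧
    ∀ q ∈ bd A R, Conn A (fun v => v ∉ R) q p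

lemma ChainState.sc {i : ℕ} {R : Finset V} {p : V} (h : ChainState A i R p) : SC A R := by
  obtain ⟨_, hb, hmin, _⟩ := h
  intro X hX hne hneR
  by_contra hcon
  push Not at hcon
  have hsub : bd A X ⊆ bd A R := by
    intro w hw
    obtain ⟨hwX, v, hv, hvw⟩ := mem_bd.1 hw
    refine mem_bd.2 ⟨fun hwR => hcon v hv w hwR hwX hvw, v, hX hv, hvw⟩
  have h1 := Finset.card_le_card hsub
  have h2 := hmin X hX hne hneR
  omega

/-- Minimal nonempty subset of `S` with a given property. -/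
lemma exists_min (Pr : Finset V → Prop) (S : Finset V) (hS : S.Nonempty) (hPr : Pr S) :
    ∃ Y ⊆ S, Y.Nonempty ∧ Pr Y ∧
      ∀ X : Finset V, X ⊆ Y → X.Nonempty → X ≠ Y → ¬ Pr X := by
  let F : Finset (Finset V) := S.powerset.filter (fun Y => Y.Nonempty ∧ Pr Y)
  have hF : F.Nonempty := ⟨S, by simp [F, hS, hPr]⟩
  obtain ⟨Y, hY, hmin⟩ := F.exists_min_image Finset.card hF
  have hY' : Y ⊆ S ∧ Y.Nonempty ∧ Pr Y := by simpa [F] using hY
  refine ⟨Y, hY'.1, hY'.2.1, hY'.2.2, ?_⟩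
  intro X hXY hne hneY hP
  have hXF : X ∈ F := by
    simp only [F, Finset.mem_filter, Finset.mem_powerset]
    exact ⟨hXY.trans hY'.1, hne, hP⟩
  have h1 := hmin X hXF
  have h2 := Finset.card_lt_card (Finset.ssubset_iff_subset_ne.2 ⟨hXY, hneY⟩)
  omega

lemma chain_zero [Nonempty V] : ∃ R p, ChainState A 0 R p := by
  obtain ⟨R, -, hne, hP, hmin⟩ := exists_min (fun Y : Finset V => (bd A Y).card ≤ 0)
    (Finset.univ : Finset V) Finset.univ_nonempty (by
      simp only [nonpos_iff_eq_zero, Finset.card_eq_zero]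
      ext w; simp [bd])
  obtain ⟨p, hp⟩ := hne
  refine ⟨R, p, hp, hP, ?_, ?_⟩
  · intro X hX hne hneR
    have := hmin X hX hne hneR
    omega
  · intro q hq
    have : (bd A R) = ∅ := by
      rw [← Finset.card_eq_zero]; omega
    rw [this] at hq
    simp at hq

lemma chain_succ {K i : ℕ} (hdeg : Deg A K) (hi : i < K) {R : Finset V} {p : V}
    (h : ChainState A i R p) : ∃ R' p', ChainState A (i + 1) R' p' := by
  have hsc := h.sc
  obtain ⟨hp, hb, hmin, hreach⟩ := h
  have hne := erase_nonempty hdeg hp (lt_of_le_of_lt hb hi)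
  have hbe : (bd A (R.erase p)).card ≤ i + 1 := by
    have hsub : bd A (R.erase p) ⊆ insert p (bd A R) := by
      intro w hw
      obtain ⟨hw1, v, hv, hvw⟩ := mem_bd.1 hw
      by_cases hwp : w = p
      · simp [hwp]
      · refine Finset.mem_insert_of_mem (mem_bd.2 ⟨fun hwR => hw1 (Finset.mem_erase.2 ⟨hwp, hwR⟩),
          v, Finset.mem_of_mem_erase hv, hvw⟩)
    have h1 := Finset.card_le_card hsub
    have h2 := Finset.card_insert_le p (bd A R)
    omega
  obtain ⟨R', hR'sub, hR'ne, hR'b, hR'min⟩ :=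
    exists_min (fun Y : Finset V => (bd A Y).card ≤ i + 1) (R.erase p) hne hbe
  have hR'R : R' ⊆ R := hR'sub.trans (Finset.erase_subset _ _)
  have hpR' : p ∉ R' := fun hpR' => by
    have := hR'sub hpR'
    simp at this
  obtain ⟨p', hp', hpp'⟩ := hsc.conn hp hR'R hR'ne
  refine ⟨R', p', hp', hR'b, ?_, ?_⟩
  · intro X hX hXne hXR'
    have := hR'min X hX hXne hXR'
    omega
  · intro q hq
    have hpp'' : Conn A (fun v => v ∉ R') p p' := hpp'.mono (fun v hv => hv.2)
    refine Conn.trans ?_ hpp''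
    obtain ⟨hqR', v₀, hv₀, hv₀q⟩ := mem_bd.1 hq
    by_cases hqp : q = p
    · subst hqp; exact ReflTransGen.refl
    have hout : ∀ v, v ∉ R → (∃ u ∈ R, A u v) → Conn A (fun v => v ∉ R') v p := by
      intro v hv ⟨u, hu, huv⟩
      exact (hreach v (mem_bd.2 ⟨hv, u, hu, huv⟩)).mono (fun w hw hwR' => hw (hR'R hwR'))
    by_cases hqR : q ∈ R
    swap
    · exact hout q hqR ⟨v₀, hR'R hv₀, hv₀q⟩
    -- the case `q ∈ R`
    let Z : Finset V := Finset.univ.filter
      (fun z => (z ∈ R ∧ z ∉ R' ∧ z ≠ p) ∧ Conn A (fun v => v ∉ R') q z)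
    have hZ : ∀ z, z ∈ Z ↔ ((z ∈ R ∧ z ∉ R' ∧ z ≠ p) ∧ Conn A (fun v => v ∉ R') q z) := by
      intro z; simp [Z]
    have hqZ : q ∈ Z := (hZ q).2 ⟨⟨hqR, hqR', hqp⟩, ReflTransGen.refl⟩
    by_contra hcon
    have hclosed : ∀ u ∈ Z, ∀ v, A u v → v ∈ R' ∪ Z := by
      intro u hu v huv
      obtain ⟨⟨huR, huR', hup⟩, huc⟩ := (hZ u).1 hu
      have hc : Conn A (fun v => v ∉ R') q v := ReflTransGen.tail huc ⟨huv, huR'⟩
      by_cases hvR' : v ∈ R'
      · exact Finset.mem_union_left _ hvR'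
      by_cases hvp : v = p
      · subst hvp; exact absurd hc hcon
      by_cases hvR : v ∈ R
      · exact Finset.mem_union_right _ ((hZ v).2 ⟨⟨hvR, hvR', hvp⟩, hc⟩)
      · exact absurd (hc.trans (hout v hvR ⟨u, huR, huv⟩)) hcon
    have hX1 : R' ∪ Z ⊆ R := by
      intro w hw
      rcases Finset.mem_union.1 hw with hw | hw
      · exact hR'R hw
      · exact ((hZ w).1 hw).1.1
    have hX2 : R' ∪ Z ≠ R := by
      intro heq
      have : p ∈ R' ∪ Z := heq ▸ hp
      rcases Finset.mem_union.1 this with hw | hw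
      · exact hpR' hw
      · exact ((hZ p).1 hw).1.2.2 rfl
    have hX3 := hmin (R' ∪ Z) hX1 ⟨q, Finset.mem_union_right _ hqZ⟩ hX2
    have hsub : bd A (R' ∪ Z) ⊆ (bd A R').erase q := by
      intro w hw
      obtain ⟨hw1, v, hv, hvw⟩ := mem_bd.1 hw
      rcases Finset.mem_union.1 hv with hv | hv
      · refine Finset.mem_erase.2 ⟨?_, mem_bd.2 ⟨fun h => hw1 (Finset.mem_union_left _ h),
          v, hv, hvw⟩⟩
        rintro rfl
        exact hw1 (Finset.mem_union_right _ hqZ)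
      · exact absurd (hclosed v hv w hvw) hw1
    have h1 := Finset.card_le_card hsub
    have h2 := Finset.card_erase_of_mem hq
    have h3 : 0 < (bd A R').card := Finset.card_pos.2 ⟨q, hq⟩
    have h4 : (bd A R').card ≤ i + 1 := hR'b
    omega

lemma chain [Nonempty V] {K : ℕ} (hdeg : Deg A K) :
    ∀ i ≤ K, ∃ R p, ChainState A i R p
  | 0, _ => chain_zero
  | i + 1, hi => by
    obtain ⟨R, p, h⟩ := chain hdeg i (by omega)
    exact chain_succ hdeg (by omega) h

end Pool.Agent.Lib.MP_ed9a33_co_Full
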