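import Pool.Agent.Lib.MP_ed9a33_co_Full.Chain

set_option autoImplicit false

namespace Pool.Agent.Lib.MP_ed9a33_co_Full

open Classical Relation

set_option linter.unusedSectionVars false

variable {V : Type*} [Fintype V] {A : V → V → Prop}

/-- `f` is a walk of length `n` from `x` to `y`, all non-final vertices satisfying `P`. -/
def IsWlk (A : V → V → Prop) (P : V → Prop) (x y : V) (n : ℕ) (f : ℕ → V) : Prop :=
  f 0 = x ∧ f n = y ∧ ∀ j < n, A (f j) (f (j + 1)) ∧ P (f j)

lemma Conn.exists_wlk {P : V → Prop} {x y : V} (c : Conn A P x y) :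
    ∃ n f, IsWlk A P x y n f := by
  unfold Conn at c
  induction c with
  | refl => exact ⟨0, fun _ => x, rfl, rfl, fun j hj => absurd hj (by omega)⟩
  | @tail b c' _ hbc ih =>
    obtain ⟨n, f, h0, hn, hf⟩ := ih
    refine ⟨n + 1, fun j => if j ≤ n then f j else c', by simp [h0], by simp, ?_⟩
    intro j hj
    by_cases hjn : j = n
    · subst hjn
      simp only [le_refl, if_true]
      rw [if_neg (by omega), hn]
      exact hbc
    · have h1 : j ≤ n := by omega
      have h2 : j + 1 ≤ n := by omega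
      simp only [h1, h2, if_true]
      exact hf j (by omega)

/-- Shortest walks are injective before the end. -/
lemma Conn.exists_inj {P : V → Prop} {x y : V} (c : Conn A P x y) :
    ∃ n f, IsWlk A P x y n f ∧ ∀ i j, i < n → j < n → f i = f j → i = j := by
  have hex : ∃ n, ∃ f, IsWlk A P x y n f := c.exists_wlk
  obtain ⟨f, hf⟩ := Nat.find_spec hex
  have hmin := fun m (hm : m < Nat.find hex) => Nat.find_min hex hm
  generalize Nat.find hex = n at hf hmin
  refine ⟨n, f, hf, ?_⟩
  obtain ⟨h0, hn, hstep⟩ := hf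
  have key : ∀ i j, i < j → j < n → f i ≠ f j := by
    intro i j hij hjn heq
    refine hmin (n - (j - i)) (by omega) ⟨fun t => if t ≤ i then f t else f (t + (j - i)), ?_, ?_, ?_⟩
    · simp [h0]
    · have h1 : ¬ (n - (j - i) ≤ i) := by omega
      simp only [h1, if_false]
      rw [← hn]; congr 1; omega
    · intro t ht
      by_cases h1 : t < i
      · have h2 : t ≤ i := by omega
        have h3 : t + 1 ≤ i := by omega
        simp only [h2, h3, if_true]
        exact hstep t (by omega)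
      by_cases h2 : t = i
      · subst h2
        simp only [le_refl, if_true]
        rw [if_neg (by omega), heq]
        have := hstep j hjn
        rw [show t + 1 + (j - t) = j + 1 by omega]
        exact this
      · beta_reduce
        rw [if_neg (show ¬ t ≤ i by omega), if_neg (show ¬ t + 1 ≤ i by omega)]
        have := hstep (t + (j - i)) (by omega)
        rw [show t + 1 + (j - i) = t + (j - i) + 1 by omega]
        exact this
  intro i j hi hj hfij
  rcases Nat.lt_trichotomy i j with h | h | h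
  · exact absurd hfij (key i j h hj)
  · exact h
  · exact absurd hfij.symm (key j i h hi)

/-- The oriented step: forward if `s = true`, backward if `s = false`. -/
def Ori (A : V → V → Prop) (s : Bool) (u v : V) : Prop :=
  (s = true → A u v) ∧ (s = false → A v u)

/-- One step of the run. -/
lemma step {K : ℕ} (hdeg : Deg A K) (s : Bool) {T : Finset V} {x : V} (hT : SC A T) (hx : x ∈ T)
    (hb : (bd A T).card < K) :
    ∃ (Y : Finset V) (x' : V) (n : ℕ) (f : ℕ → V), Y ⊆ T ∧ SC A Y ∧ x' ∈ Y ∧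
      bd A Y ⊆ insert x (bd A T) ∧ 1 ≤ n ∧ f 0 = x ∧ f n = x' ∧
      (∀ j < n, Ori A s (f j) (f (j + 1)) ∧ f j ∈ T ∧ f j ∉ Y) ∧
      ∀ i j, i < n → j < n → f i = f j → i = j := by
  have hne := erase_nonempty hdeg hx hb
  obtain ⟨Y, hYsub, hYne, hYcl, hYmin⟩ :=
    exists_min (fun Y : Finset V => ∀ u ∈ Y, ∀ v ∈ T.erase x, A u v → v ∈ Y) (T.erase x) hne
      (fun u _ v hv _ => hv)
  have hYT : Y ⊆ T := hYsub.trans (Finset.erase_subset _ _)
  have hxY : x ∉ Y := fun h => by
    have := hYsub h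
    simp at this
  have hYSC : SC A Y := by
    intro X hX hXne hXY
    by_contra hcon
    push Not at hcon
    refine hYmin X hX hXne hXY ?_
    intro u hu v hv huv
    by_contra hvX
    exact hcon u hu v (hYcl u (hX hu) v hv huv) hvX huv
  have hbY : bd A Y ⊆ insert x (bd A T) := by
    intro w hw
    obtain ⟨hwY, v, hv, hvw⟩ := mem_bd.1 hw
    by_cases hwx : w = x
    · simp [hwx]
    refine Finset.mem_insert_of_mem (mem_bd.2 ⟨fun hwT => hwY ?_, v, hYT hv, hvw⟩)
    exact hYcl v hv w (Finset.mem_erase.2 ⟨hwx, hwT⟩) hvw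
  have hYneT : Y ≠ T := by
    intro h; exact hxY (h ▸ hx)
  cases s with
  | true =>
    obtain ⟨y, hy, hc⟩ := hT.conn hx hYT hYne
    obtain ⟨n, f, ⟨h0, hn, hf⟩, hinj⟩ := hc.exists_inj
    refine ⟨Y, y, n, f, hYT, hYSC, hy, hbY, ?_, h0, hn, ?_, hinj⟩
    · by_contra hn0
      have : n = 0 := by omega
      subst this
      exact hxY (by rw [← h0, hn]; exact hy)
    · intro j hj
      obtain ⟨h1, h2, h3⟩ := hf j hj
      exact ⟨⟨fun _ => h1, fun h => by simp at h⟩, h2, h3⟩
  | false =>
    obtain ⟨u, hu, v, hv, hvY, huv⟩ := hT Y hYT hYne hYneT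
    have hvx : v = x := by
      by_contra hvx
      exact hvY (hYcl u hu v (Finset.mem_erase.2 ⟨hvx, hv⟩) huv)
    subst hvx
    refine ⟨Y, u, 1, fun j => if j = 0 then v else u, hYT, hYSC, hu, hbY, le_refl _, by simp,
      by simp, ?_, ?_⟩
    · intro j hj
      have : j = 0 := by omega
      subst this
      simp only [if_true, zero_add, one_ne_zero, if_false]
      exact ⟨⟨fun h => by simp at h, fun _ => huv⟩, hx, hxY⟩
    · intro i j hi hj _
      omega

/-- The run lemma. -/
lemma run {K : ℕ} (hdeg : Deg A K) (r : ℕ) : ∀ (σ : ℕ → Bool) (T : Finset V) (x : V),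
    SC A T → x ∈ T → (bd A T).card + r ≤ K →
    ∃ (z : ℕ → V) (ℓ : ℕ → ℕ) (p : ℕ → ℕ → V) (T' : Finset V), z 0 = x ∧ z r ∈ T' ∧ T' ⊆ T ∧
      SC A T' ∧ (∀ w ∈ bd A T', w ∈ bd A T ∨ ∃ i < r, w = z i) ∧
      (∀ i < r, 1 ≤ ℓ i ∧ p i 0 = z i ∧ p i (ℓ i) = z (i + 1) ∧
        ∀ j < ℓ i, Ori A (σ i) (p i j) (p i (j + 1)) ∧ p i j ∈ T ∧ p i j ∉ T') ∧
      (∀ i i' j j', i < r → i' < r → j < ℓ i → j' < ℓ i' → p i j = p i' j' → i = i' ∧ j = j') := by
  induction r with
  | zero =>
    intro σ T x hT hx hb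
    refine ⟨fun _ => x, fun _ => 0, fun _ _ => x, T, rfl, hx, subset_rfl, hT,
      fun w hw => Or.inl hw, fun i hi => absurd hi (by omega), fun i i' j j' hi => absurd hi (by omega)⟩
  | succ r ih =>
    intro σ T x hT hx hb
    obtain ⟨Y, x', n, f, hYT, hY, hx', hbY, hn, hf0, hfn, hf, hfinj⟩ :=
      step hdeg (σ 0) hT hx (by omega)
    have hcard : (bd A Y).card ≤ (bd A T).card + 1 :=
      (Finset.card_le_card hbY).trans (Finset.card_insert_le _ _)
    obtain ⟨z, ℓ, p, T', hz0, hzr, hT'Y, hT', hbT', hseg, hinj⟩ :=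
      ih (fun i => σ (i + 1)) Y x' hY hx' (by omega)
    refine ⟨fun i => Nat.casesOn i x z, fun i => Nat.casesOn i n ℓ,
      fun i => Nat.casesOn i f p, T', rfl, hzr, hT'Y.trans hYT, hT', ?_, ?_, ?_⟩
    · intro w hw
      rcases hbT' w hw with h | ⟨i, hi, h⟩
      · rcases Finset.mem_insert.1 (hbY h) with h | h
        · exact Or.inr ⟨0, by omega, h⟩
        · exact Or.inl h
      · exact Or.inr ⟨i + 1, by omega, h⟩
    · intro i hi
      cases i with
      | zero =>
        refine ⟨hn, hf0, ?_, ?_⟩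
        · show f n = z 0
          rw [hfn, hz0]
        · intro j hj
          obtain ⟨h1, h2, h3⟩ := hf j hj
          exact ⟨h1, h2, fun h => h3 (hT'Y h)⟩
      | succ i =>
        obtain ⟨h1, h2, h3, h4⟩ := hseg i (by omega)
        refine ⟨h1, h2, h3, ?_⟩
        intro j hj
        obtain ⟨h5, h6, h7⟩ := h4 j hj
        exact ⟨h5, hYT h6, h7⟩
    · intro i i' j j' hi hi' hj hj' heq
      cases i with
      | zero =>
        cases i' with
        | zero => exact ⟨rfl, hfinj j j' hj hj' heq⟩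
        | succ i' =>
          exfalso
          obtain ⟨-, -, h3⟩ := hf j hj
          obtain ⟨h5, h6, h7⟩ := (hseg i' (by omega)).2.2.2 j' hj'
          have heq' : f j = p i' j' := heq
          exact h3 (heq' ▸ h6)
      | succ i =>
        cases i' with
        | zero =>
          exfalso
          obtain ⟨-, -, h3⟩ := hf j' hj'
          obtain ⟨h5, h6, h7⟩ := (hseg i (by omega)).2.2.2 j hj
          have heq' : p i j = f j' := heq
          exact h3 (heq' ▸ h6)
        | succ i' =>
          obtain ⟨h1, h2⟩ := hinj i i' j j' (by omega) (by omega) hj hj' heq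
          exact ⟨by omega, h2⟩

/-- A subdivision of the oriented cycle with orientation `σ` on `k` edges. -/
def HasCycle (A : V → V → Prop) (k : ℕ) (σ : ℕ → Bool) : Prop :=
  ∃ ℓ : ℕ → ℕ, ∃ p : ℕ → ℕ → V,
    (∀ i < k, 1 ≤ ℓ i ∧ p i (ℓ i) = p ((i + 1) % k) 0 ∧
      ∀ j < ℓ i, Ori A (σ i) (p i j) (p i (j + 1))) ∧
    (∀ i i' j j' : ℕ, i < k → i' < k → j < ℓ i → j' < ℓ i' →
      p i j = p i' j' → i = i' ∧ j = j')

/-- The main theorem for orientations whose last edge is forward; `k = m + 2`. -/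
lemma hasCycle_last [Nonempty V] {K m : ℕ} (hdeg : Deg A K) (hK : 2 * m + 1 ≤ K)
    (σ : ℕ → Bool) (hσ : σ (m + 1) = true) : HasCycle A (m + 2) σ := by
  obtain ⟨R, p₀, hR⟩ := chain hdeg m (by omega)
  have hRSC := hR.sc
  obtain ⟨hp₀, hRb, hRmin, hRreach⟩ := hR
  obtain ⟨z, ℓ, p, T', hz0, hzr, hT'R, hT', hbT', hseg, hinj⟩ :=
    run hdeg (m + 1) σ R p₀ hRSC hp₀ (by omega)
  have hp₀T' : p₀ ∉ T' := by
    obtain ⟨h1, h2, h3, h4⟩ := hseg 0 (by omega)
    have := (h4 0 (by omega)).2.2
    rw [h2, hz0] at this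
    exact this
  have hT'ne : T' ≠ R := fun h => hp₀T' (h ▸ hp₀)
  have hbig := hRmin T' hT'R ⟨_, hzr⟩ hT'ne
  -- a boundary vertex which is no later hub
  obtain ⟨w, hw, hwz⟩ : ∃ w ∈ bd A T', w ∉ (Finset.range m).image (fun i => z (i + 1)) := by
    by_contra hcon
    push Not at hcon
    have h1 := Finset.card_le_card (s := bd A T') (t := (Finset.range m).image (fun i => z (i + 1)))
      hcon
    have h2 : ((Finset.range m).image (fun i => z (i + 1))).card ≤ m := by
      simpa using Finset.card_image_le (s := Finset.range m) (f := fun i => z (i + 1))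
    omega
  have hconn : Conn A (fun v => v ∈ T' ∨ v ∉ R) (z (m + 1)) p₀ := by
    obtain ⟨hwT', y, hy, hyw⟩ := mem_bd.1 hw
    obtain ⟨y', hy', hc⟩ := hT'.conn hzr (Y := {y}) (by simpa using hy) ⟨y, by simp⟩
    have : y' = y := by simpa using hy'
    subst this
    have h1 : Conn A (fun v => v ∈ T' ∨ v ∉ R) (z (m + 1)) w :=
      ReflTransGen.tail (hc.mono (fun v hv => Or.inl hv.1)) ⟨hyw, Or.inl hy⟩
    rcases hbT' w hw with h | ⟨i, hi, h⟩
    · exact h1.trans ((hRreach w h).mono (fun v hv => Or.inr hv))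
    · cases i with
      | zero => rw [h, hz0] at h1; exact h1
      | succ i =>
        exact absurd (Finset.mem_image.2 ⟨i, Finset.mem_range.2 (by omega), h.symm⟩) hwz
  obtain ⟨n, f, ⟨hf0, hfn, hf⟩, hfinj⟩ := hconn.exists_inj
  have hn : 1 ≤ n := by
    by_contra hn0
    have : n = 0 := by omega
    subst this
    exact hp₀T' (by rw [← hfn, hf0]; exact hzr)
  refine ⟨fun i => if i = m + 1 then n else ℓ i, fun i => if i = m + 1 then f else p i, ?_, ?_⟩
  · intro i hi
    by_cases him : i = m + 1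
    · subst him
      simp only [if_true]
      have hmod : (m + 1 + 1) % (m + 2) = 0 := Nat.mod_self _
      rw [hmod, if_neg (by omega)]
      refine ⟨hn, ?_, ?_⟩
      · rw [hfn, (hseg 0 (by omega)).2.1, hz0]
      · intro j hj
        exact ⟨fun _ => (hf j hj).1, fun h => by rw [hσ] at h; simp at h⟩
    · have hmod : (i + 1) % (m + 2) = i + 1 := Nat.mod_eq_of_lt (by omega)
      rw [hmod]
      simp only [him, if_false]
      obtain ⟨h1, h2, h3, h4⟩ := hseg i (by omega)
      refine ⟨h1, ?_, fun j hj => (h4 j hj).1⟩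
      rw [h3]
      by_cases him' : i + 1 = m + 1
      · rw [if_pos him', hf0, him']
      · rw [if_neg him', (hseg (i + 1) (by omega)).2.1]
  · intro i i' j j' hi hi' hj hj' heq
    by_cases him : i = m + 1 <;> by_cases him' : i' = m + 1
    · simp only [him, him', if_true] at hj hj' heq ⊢
      exact ⟨trivial, hfinj j j' hj hj' heq⟩
    · exfalso
      simp only [him, him', if_true, if_false] at hj hj' heq
      obtain ⟨h1, h2, h3⟩ := (hseg i' (by omega)).2.2.2 j' hj'
      rcases (hf j hj).2 with h | h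
      · exact h3 (heq ▸ h)
      · exact h (heq ▸ h2)
    · exfalso
      simp only [him, him', if_true, if_false] at hj hj' heq
      obtain ⟨h1, h2, h3⟩ := (hseg i (by omega)).2.2.2 j hj
      rcases (hf j' hj').2 with h | h
      · exact h3 (heq ▸ h)
      · exact h (heq ▸ h2)
    · simp only [him, him', if_false] at hj hj' heq
      exact hinj i i' j j' (by omega) (by omega) hj hj' heq

/-- Rotation. -/
lemma HasCycle.rotate {k a : ℕ} {σ : ℕ → Bool} (ha : a < k)
    (h : HasCycle A k (fun i => σ ((i + a) % k))) : HasCycle A k σ := by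
  obtain ⟨ℓ, p, h1, h2⟩ := h
  have hk : 0 < k := by omega
  have hlt : ∀ i, (i + (k - a)) % k < k := fun i => Nat.mod_lt _ hk
  have hback : ∀ i < k, ((i + (k - a)) % k + a) % k = i := by
    intro i hi
    rw [Nat.mod_add_mod, show i + (k - a) + a = i + k by omega, Nat.add_mod_right,
      Nat.mod_eq_of_lt hi]
  refine ⟨fun i => ℓ ((i + (k - a)) % k), fun i => p ((i + (k - a)) % k), ?_, ?_⟩
  · intro i hi
    obtain ⟨h3, h4, h5⟩ := h1 _ (hlt i)
    refine ⟨h3, ?_, ?_⟩
    · show p ((i + (k - a)) % k) (ℓ ((i + (k - a)) % k)) = p (((i + 1) % k + (k - a)) % k) 0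
      rw [h4]
      congr 1
      rw [Nat.mod_add_mod, Nat.mod_add_mod]
      congr 1
      omega
    · intro j hj
      have := h5 j hj
      simp only [hback i hi] at this
      exact this
  · intro i i' j j' hi hi' hj hj' heq
    obtain ⟨h3, h4⟩ := h2 _ _ j j' (hlt i) (hlt i') hj hj' heq
    refine ⟨?_, h4⟩
    rw [← hback i hi, ← hback i' hi', h3]

/-- Reversal of the traversal. -/
lemma HasCycle.reverse {k : ℕ} {σ : ℕ → Bool}
    (h : HasCycle A k (fun i => !σ (k - 1 - i))) : HasCycle A k σ := by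
  obtain ⟨ℓ, p, h1, h2⟩ := h
  refine ⟨fun i => ℓ (k - 1 - i), fun i j => p (k - 1 - i) (ℓ (k - 1 - i) - j), ?_, ?_⟩
  · intro i hi
    obtain ⟨h3, h4, h5⟩ := h1 (k - 1 - i) (by omega)
    refine ⟨h3, ?_, ?_⟩
    · simp only [Nat.sub_self, Nat.sub_zero]
      by_cases hik : i + 1 = k
      · have e1 : k - 1 - i = 0 := by omega
        have e2 : (i + 1) % k = 0 := by rw [hik]; exact Nat.mod_self _
        rw [e1, e2]
        obtain ⟨-, h7, -⟩ := h1 (k - 1) (by omega)
        rw [show k - 1 - 0 = k - 1 by omega, h7, show k - 1 + 1 = k by omega, Nat.mod_self]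
      · have e2 : (i + 1) % k = i + 1 := Nat.mod_eq_of_lt (by omega)
        rw [e2]
        obtain ⟨-, h7, -⟩ := h1 (k - 1 - (i + 1)) (by omega)
        rw [h7, show k - 1 - (i + 1) + 1 = k - 1 - i by omega,
          Nat.mod_eq_of_lt (show k - 1 - i < k by omega)]
    · intro j hj
      have hj1 : j < ℓ (k - 1 - i) := hj
      have h6 := h5 (ℓ (k - 1 - i) - (j + 1)) (by omega)
      beta_reduce at h6
      rw [show ℓ (k - 1 - i) - (j + 1) + 1 = ℓ (k - 1 - i) - j by omega,
        show k - 1 - (k - 1 - i) = i by omega] at h6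
      obtain ⟨h8, h9⟩ := h6
      refine ⟨fun hs => h9 (by rw [hs]; rfl), fun hs => h8 (by rw [hs]; rfl)⟩
  · intro i i' j j' hi hi' hj hj' heq
    simp only [] at heq hj hj'
    obtain ⟨a1, a2, a3⟩ := h1 (k - 1 - i) (by omega)
    obtain ⟨b1, b2, b3⟩ := h1 (k - 1 - i') (by omega)
    by_cases hj0 : j = 0 <;> by_cases hj0' : j' = 0
    · subst hj0; subst hj0'
      rw [Nat.sub_zero, Nat.sub_zero, a2, b2] at heq
      have hk : 0 < k := by omega
      obtain ⟨h3, -⟩ := h2 _ _ 0 0 (Nat.mod_lt _ hk) (Nat.mod_lt _ hk)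
        (by have := (h1 _ (Nat.mod_lt (k - 1 - i + 1) hk)).1; omega)
        (by have := (h1 _ (Nat.mod_lt (k - 1 - i' + 1) hk)).1; omega) heq
      refine ⟨?_, rfl⟩
      by_cases hi0 : i = 0 <;> by_cases hi0' : i' = 0
      · omega
      · subst hi0
        rw [show k - 1 - 0 + 1 = k by omega, Nat.mod_self,
          Nat.mod_eq_of_lt (show k - 1 - i' + 1 < k by omega)] at h3
        omega
      · subst hi0'
        rw [show k - 1 - 0 + 1 = k by omega, Nat.mod_self,
          Nat.mod_eq_of_lt (show k - 1 - i + 1 < k by omega)] at h3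
        omega
      · rw [Nat.mod_eq_of_lt (show k - 1 - i' + 1 < k by omega),
          Nat.mod_eq_of_lt (show k - 1 - i + 1 < k by omega)] at h3
        omega
    · exfalso
      subst hj0
      rw [Nat.sub_zero, a2] at heq
      have hk : 0 < k := by omega
      obtain ⟨-, h3⟩ := h2 _ _ 0 _ (Nat.mod_lt _ hk) (show k - 1 - i' < k by omega)
        (by have := (h1 _ (Nat.mod_lt (k - 1 - i + 1) hk)).1; omega)
        (show ℓ (k - 1 - i') - j' < ℓ (k - 1 - i') by omega) heq
      omega
    · exfalso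
      subst hj0'
      rw [Nat.sub_zero, b2] at heq
      have hk : 0 < k := by omega
      obtain ⟨-, h3⟩ := h2 _ _ _ 0 (show k - 1 - i < k by omega) (Nat.mod_lt _ hk)
        (show ℓ (k - 1 - i) - j < ℓ (k - 1 - i) by omega)
        (by have := (h1 _ (Nat.mod_lt (k - 1 - i' + 1) hk)).1; omega) heq
      omega
    · obtain ⟨h3, h4⟩ := h2 _ _ _ _ (show k - 1 - i < k by omega) (show k - 1 - i' < k by omega)
        (show ℓ (k - 1 - i) - j < ℓ (k - 1 - i) by omega)
        (show ℓ (k - 1 - i') - j' < ℓ (k - 1 - i') by omega) heq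
      have h5 : i = i' := by omega
      subst h5
      exact ⟨rfl, by omega⟩

/-- **Main theorem.** Minimum out-degree at least `2k - 3` forces a subdivision of every
orientation of the `k`-cycle. -/
theorem hasCycle [Nonempty V] {K k : ℕ} (hk : 2 ≤ k) (hdeg : Deg A K) (hK : 2 * k - 3 ≤ K)
    (σ : ℕ → Bool) : HasCycle A k σ := by
  obtain ⟨m, rfl⟩ : ∃ m, k = m + 2 := ⟨k - 2, by omega⟩
  have hK' : 2 * m + 1 ≤ K := by omega
  -- orientations with some forward edge
  have main : ∀ τ : ℕ → Bool, (∃ i < m + 2, τ i = true) → HasCycle A (m + 2) τ := by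
    rintro τ ⟨i₀, hi₀, hτ⟩
    have hmod : (m + 1 + (i₀ + 1) % (m + 2)) % (m + 2) = i₀ := by
      rw [Nat.add_mod_mod, show m + 1 + (i₀ + 1) = i₀ + (m + 2) by omega, Nat.add_mod_right,
        Nat.mod_eq_of_lt hi₀]
    refine HasCycle.rotate (a := (i₀ + 1) % (m + 2)) (Nat.mod_lt _ (by omega)) ?_
    refine hasCycle_last hdeg hK' _ ?_
    rw [hmod, hτ]
  by_cases h : ∃ i < m + 2, σ i = true
  · exact main σ h
  · push Not at h
    refine HasCycle.reverse (main _ ⟨0, by omega, ?_⟩)
    have := h (m + 2 - 1 - 0) (by omega)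
    simpa using this

end Pool.Agent.Lib.MP_ed9a33_co_Full
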